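import Pool.Agent.W_9df192_h86.B10

/-!
# For almost all `n` the least `m` with `n ∣ σ^m(n)` is at least `c log n / log log log n`
-/

namespace Pool.Agent.Results.MP_9df192_nt.AlmostAll

/-- For every `ε > 0` there are `c > 0` and `x₀` such that for all `x ≥ x₀` at most `ε x` of the
integers `1 ≤ n ≤ x` divide `σ^m(n)` for some `1 ≤ m ≤ c log x / log log log x`. -/
theorem result : ∀ ε : ℝ, 0 < ε → ∃ c : ℝ, 0 < c ∧ ∃ x₀ : ℕ, ∀ x : ℕ, x₀ ≤ x →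
    (({n : ℕ | 1 ≤ n ∧ n ≤ x ∧ ∃ m : ℕ, 1 ≤ m ∧
        (m : ℝ) ≤ c * Real.log x / Real.log (Real.log (Real.log x)) ∧
        n ∣ (fun t => ArithmeticFunction.sigma 1 t)^[m] n}.ncard : ℕ) : ℝ) ≤ ε * x :=
  Pool.Agent.W_9df192_h86.almost_all

end Pool.Agent.Results.MP_9df192_nt.AlmostAll
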