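import Pool.Agent.W_9df192_h86.A9

/-!
# A Hornfeck-Wirsing bound for the iterates of the sum-of-divisors function
-/

namespace Pool.Agent.Results.MP_9df192_nt.WirsingIterates

/-- There is a constant `C` such that for all `m ≥ 1` and `x ≥ 3` at most
`exp (C m log x / log log x)` of the integers `1 ≤ n ≤ x` divide `σ^j(n)` for some
`1 ≤ j ≤ m`. -/
theorem result : ∃ C : ℝ, 0 < C ∧ ∀ m x : ℕ, 1 ≤ m → 3 ≤ x →
    (({n : ℕ | 1 ≤ n ∧ n ≤ x ∧
        ∃ j : ℕ, 1 ≤ j ∧ j ≤ m ∧ n ∣ (fun t => ArithmeticFunction.sigma 1 t)^[j] n}.ncard : ℕ) : ℝ)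
      ≤ Real.exp (C * m * Real.log x / Real.log (Real.log x)) :=
  Pool.Agent.W_9df192_h86.wirsing_iterates

end Pool.Agent.Results.MP_9df192_nt.WirsingIterates
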